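import Pool.Agent.H90.STK.Stmts3
import Pool.Agent.H89.STK.TUB

/-!
# The union of a family of tubes, with the product of the covering numbers
-/

set_option autoImplicit false

namespace Pool.STK

open Finset Real MeasureTheory
open scoped RealInnerProductSpace
open Pool.Agent.H49.Ent Pool.Agent.H32.Dense
open Pool.Agent.H53.Kak (E tube)
open Pool.Agent.H53.Dns (Mx psl slp)

namespace TU2

lemma exists_K {c δ : ℝ} {M : ℕ} (hM : 1 ≤ M) (hc : 0 < c) (hc1 : c ≤ 1) (hδ : 0 < δ)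
    (hδ1 : δ < 1) :
    ∃ K : ℕ, ((2 : ℝ) ^ (M * K))⁻¹ ≤ c * δ ∧ c / 2 ^ M * δ ≤ ((2 : ℝ) ^ (M * K))⁻¹ := by
  have hcd : 0 < c * δ := mul_pos hc hδ
  have h1 : 1 ≤ (c * δ)⁻¹ := by
    rw [one_le_inv₀ hcd]
    nlinarith
  have hB : (1 : ℝ) < 2 ^ M := one_lt_pow₀ (by norm_num) (by omega)
  obtain ⟨n, h2, h3⟩ := exists_nat_pow_near h1 hB
  refine ⟨n + 1, ?_, ?_⟩
  · rw [pow_mul, inv_le_comm₀ (by positivity) hcd]
    exact h3.le
  · rw [pow_mul, pow_succ, mul_inv]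
    have h4 : c * δ ≤ (((2 : ℝ) ^ M) ^ n)⁻¹ := by
      rw [le_inv_comm₀ hcd (by positivity)]
      exact h2
    calc c / 2 ^ M * δ = (c * δ) * ((2 : ℝ) ^ M)⁻¹ := by
          rw [div_eq_mul_inv]; ring
      _ ≤ (((2 : ℝ) ^ M) ^ n)⁻¹ * ((2 : ℝ) ^ M)⁻¹ := by gcongr

lemma pow_scale {M K r : ℕ} (hM : 1 ≤ M) :
    (((2 : ℝ) ^ (M * K))⁻¹) ^ ((r : ℝ) / M) = ((2 : ℝ) ^ (r * K))⁻¹ := by
  have hM0 : (M : ℝ) ≠ 0 := by
    have : (0 : ℝ) < M := by exact_mod_cast hM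
    exact this.ne'
  rw [Real.inv_rpow (by positivity), ← Real.rpow_natCast, ← Real.rpow_mul (by norm_num),
    ← Real.rpow_natCast]
  congr 2
  push_cast
  field_simp

/-- Comparison of the scales. -/
lemma scales {M K r : ℕ} {c' δ : ℝ} (hM : 1 ≤ M) (hr : r ≤ M) (hc : 0 < c') (hc1 : c' ≤ 1)
    (hδ : 0 < δ) (h1 : ((2 : ℝ) ^ (M * K))⁻¹ ≤ δ) (h2 : c' * δ ≤ ((2 : ℝ) ^ (M * K))⁻¹) :
    δ ^ ((r : ℝ) / M) ≤ c'⁻¹ * ((2 : ℝ) ^ (r * K))⁻¹ ∧
      ((2 : ℝ) ^ (r * K))⁻¹ ≤ c'⁻¹ * δ ^ ((r : ℝ) / M) := by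
  have hM0 : (0 : ℝ) < M := by exact_mod_cast hM
  have hrM : (r : ℝ) / M ≤ 1 := by
    rw [div_le_one hM0]
    exact_mod_cast hr
  have hr0 : (0 : ℝ) ≤ (r : ℝ) / M := by positivity
  have e1 := pow_scale (M := M) (K := K) (r := r) hM
  have a1 : ((2 : ℝ) ^ (r * K))⁻¹ ≤ δ ^ ((r : ℝ) / M) := by
    rw [← e1]
    exact Real.rpow_le_rpow (by positivity) h1 hr0
  have a2 : (c' * δ) ^ ((r : ℝ) / M) ≤ ((2 : ℝ) ^ (r * K))⁻¹ := by
    rw [← e1]
    exact Real.rpow_le_rpow (by positivity) h2 hr0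
  have a3 : c' ≤ c' ^ ((r : ℝ) / M) := by
    calc c' = c' ^ (1 : ℝ) := (Real.rpow_one c').symm
      _ ≤ c' ^ ((r : ℝ) / M) := Real.rpow_le_rpow_of_exponent_ge hc hc1 hrM
  have hinv : 1 ≤ c'⁻¹ := (one_le_inv₀ hc).2 hc1
  have hpos : 0 < δ ^ ((r : ℝ) / M) := by positivity
  constructor
  · rw [Real.mul_rpow hc.le hδ.le] at a2
    have a4 : c' * δ ^ ((r : ℝ) / M) ≤ ((2 : ℝ) ^ (r * K))⁻¹ := by
      refine le_trans ?_ a2
      gcongr
    calc δ ^ ((r : ℝ) / M) = c'⁻¹ * (c' * δ ^ ((r : ℝ) / M)) := by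
          rw [← mul_assoc, inv_mul_cancel₀ hc.ne', one_mul]
      _ ≤ c'⁻¹ * ((2 : ℝ) ^ (r * K))⁻¹ := by gcongr
  · calc ((2 : ℝ) ^ (r * K))⁻¹ ≤ 1 * δ ^ ((r : ℝ) / M) := by rw [one_mul]; exact a1
      _ ≤ c'⁻¹ * δ ^ ((r : ℝ) / M) := by gcongr

/-- The case of small `δ`. -/
lemma good_case {d : ℕ} (hd : 1 ≤ d) {ε c' C N δ I C' P : ℝ} {J : ℕ} (hε : 0 < ε) (hc : 0 < c')
    (hc1 : c' ≤ 1) (hC : 1 ≤ C) (hN : 0 < N) (hδ : 0 < δ) (hδ1 : δ < 1) (hP : 1 ≤ P)
    (hC' : 0 ≤ C')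
    (hNC : N ≤ C * (δ ^ d)⁻¹) (hJ : c' * δ ≤ ((2 : ℝ) ^ J)⁻¹)
    (hI : Real.log N ≤ C' + Real.log P + ((1 + ε / (2 * d)) * I + ε * Real.log 2 / 2 * J)) :
    N * (C⁻¹ * Real.exp (-C') * δ ^ ε * c' ^ (ε / 2) * P⁻¹) ≤ Real.exp I := by
  have hd0 : (0 : ℝ) < d := by exact_mod_cast hd
  have hC0 : 0 < C := by linarith
  have hP0 : 0 < P := by linarith
  have hL : Real.log (N * (C⁻¹ * Real.exp (-C') * δ ^ ε * c' ^ (ε / 2) * P⁻¹)) =
      Real.log N - Real.log C - C' + ε * Real.log δ + ε / 2 * Real.log c' - Real.log P := by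
    rw [Real.log_mul hN.ne' (by positivity), Real.log_mul (by positivity) (by positivity),
      Real.log_mul (by positivity) (by positivity), Real.log_mul (by positivity) (by positivity),
      Real.log_mul (by positivity) (by positivity), Real.log_inv, Real.log_inv, Real.log_exp,
      Real.log_rpow hδ, Real.log_rpow hc]
    ring
  rw [← Real.log_le_iff_le_exp (by positivity), hL]
  have l1 : Real.log N ≤ Real.log C - d * Real.log δ := by
    have := Real.log_le_log hN hNC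
    rw [Real.log_mul hC0.ne' (by positivity), Real.log_inv, Real.log_pow] at this
    linarith
  have l2 : Real.log c' + Real.log δ ≤ -(J * Real.log 2) := by
    have := Real.log_le_log (by positivity) hJ
    rw [Real.log_mul hc.ne' hδ.ne', Real.log_inv, Real.log_pow] at this
    linarith
  have l3 : Real.log δ < 0 := Real.log_neg hδ hδ1
  have l4 : Real.log c' ≤ 0 := Real.log_nonpos hc.le hc1
  have l5 : 0 ≤ Real.log C := Real.log_nonneg hC
  have l6 : 0 ≤ Real.log P := Real.log_nonneg hP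
  set α : ℝ := ε / (2 * d) with hα
  have hα0 : 0 < α := by positivity
  have hαd : α * d = ε / 2 := by rw [hα]; field_simp
  set x := Real.log N
  set y := Real.log C
  set z := Real.log δ
  set v := Real.log c'
  set w := Real.log P
  have k1 : α * x ≤ α * y - ε / 2 * z := by
    have := mul_le_mul_of_nonneg_left l1 hα0.le
    calc α * x ≤ α * (y - d * z) := this
      _ = α * y - (α * d) * z := by ring
      _ = _ := by rw [hαd]
  have k2 : ε * Real.log 2 / 2 * J ≤ -(ε / 2 * (v + z)) := by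
    have := mul_le_mul_of_nonneg_left l2 (by positivity : (0 : ℝ) ≤ ε / 2)
    linarith
  have k3 : 0 ≤ α * ε * (-z) := by
    have : 0 ≤ -z := by linarith
    positivity
  have k4 : 0 ≤ α * (ε / 2) * (-v) := by
    have : 0 ≤ -v := by linarith
    positivity
  have k5 : 0 ≤ α * C' := by positivity
  have k6 : 0 ≤ α * w := by positivity
  have k7 : (1 + α) * (x - y - C' + ε * z + ε / 2 * v - w) ≤ (1 + α) * I := by
    nlinarith [k1, k2, k3, k4, k5, k6, hI]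
  exact le_of_mul_le_mul_left k7 (by linarith)

/-- The case of large `δ`. -/
lemma bad_case {d : ℕ} {C D δ cl Q P : ℝ} (hC : 1 ≤ C) (hδ : 0 < δ) (hP : 1 ≤ P) (hQ : 0 < Q)
    (hJ : Q⁻¹ ≤ δ) (hD : D ≤ cl / (C * Q ^ d)) (hD0 : 0 < D) :
    D * P⁻¹ * C ≤ cl * δ ^ d := by
  have hC0 : 0 < C := by linarith
  have hP1 : P⁻¹ ≤ 1 := inv_le_one_of_one_le₀ hP
  have hP0 : 0 < P := by linarith
  have h2 : D * (C * Q ^ d) ≤ cl := by
    rw [le_div_iff₀ (by positivity)] at hD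
    exact hD
  have h3 : 1 ≤ Q * δ := by
    rwa [inv_le_iff_one_le_mul₀' hQ] at hJ
  have h5 : 1 ≤ Q ^ d * δ ^ d := by
    rw [← mul_pow]
    exact one_le_pow₀ h3
  calc D * P⁻¹ * C ≤ D * 1 * C := by gcongr
    _ = D * C * 1 := by ring
    _ ≤ D * C * (Q ^ d * δ ^ d) := by gcongr
    _ = D * (C * Q ^ d) * δ ^ d := by ring
    _ ≤ cl * δ ^ d := by gcongr

lemma cell2 {d : ℕ} {ι : Type} {k : Fin (d + 1)} {g : ℤ} {q : Fin d → ℤ} {c e : ι → E d}
    (hc : Cell k g q c e) : Cell2 k g q c e := by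
  refine ⟨hc.unit, hc.mx, hc.sg, ?_, hc.ps⟩
  intro i
  have h1 := hc.ht i
  have hh0 : 0 < hm d := by unfold hm; positivity
  have hh1 : hm d ≤ 1 := by
    unfold hm
    rw [div_le_one (by positivity)]
    have : (0 : ℝ) ≤ d := by positivity
    linarith
  have h2 : (⌊c i k / hm d⌋ : ℝ) = (g : ℝ) + 1 := by
    have : ⌊c i k / hm d⌋ = g + 1 := by omega
    rw [this]
    push_cast
    ring
  have h3 := Int.floor_le (c i k / hm d)
  have h4 := Int.lt_floor_add_one (c i k / hm d)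
  rw [h2] at h3 h4
  rw [le_div_iff₀ hh0] at h3
  rw [div_lt_iff₀ hh0] at h4
  rw [abs_le]
  constructor <;> nlinarith

lemma sft_zero {Ω : Type} {m : ℕ} (u : Ω → Fin m → ℝ) : sft u (fun _ => 0) = u := by
  funext ω l
  simp [sft]

end TU2

open TU2 TUB in
/-- **TU2**. -/
theorem tu2_thm (hEP : EPStmt) (hSPA : SPAStmt) (hTVL : TVLStmt) (hTDS : TDSStmt)
    (hTS2 : TS2Stmt) (hTOV : TOVStmt) (hTCD : TCDStmt) : TU2Stmt := by
  intro d hd ε L hε hL
  have hd0 : (0 : ℝ) < d := by exact_mod_cast hd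
  have hlog2 : 0 < Real.log 2 := Real.log_pos (by norm_num)
  obtain ⟨c₁, hc₁, c₂, hc₂, hV⟩ := hTVL d
  obtain ⟨c₃, hc₃, hS⟩ := hTDS d
  obtain ⟨c₆, hc₆, hO⟩ := hTOV d
  obtain ⟨C₇, hC₇, hD⟩ := hTCD d
  obtain ⟨M, hM, K₀, hG⟩ := hEP d (1 + ε / (2 * d)) (ε * Real.log 2 / 2)
    (by have : 0 < ε / (2 * (d : ℝ)) := by positivity
        linarith) (by positivity)
  obtain ⟨cm, hcmdef⟩ : ∃ cm, cm = min (min c₂ c₃) 1 := ⟨_, rfl⟩
  have hcm0 : 0 < cm := by rw [hcmdef]; exact lt_min (lt_min hc₂ hc₃) one_pos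
  have hcm1 : cm ≤ 1 := by rw [hcmdef]; exact min_le_right _ _
  have hcm2 : cm ≤ c₂ := by rw [hcmdef]; exact (min_le_left _ _).trans (min_le_left _ _)
  have hcm3 : cm ≤ c₃ := by rw [hcmdef]; exact (min_le_left _ _).trans (min_le_right _ _)
  obtain ⟨c', hc'def⟩ : ∃ c', c' = cm / 2 ^ M := ⟨_, rfl⟩
  have hc'0 : 0 < c' := by rw [hc'def]; positivity
  have hc'1 : c' ≤ 1 := by
    rw [hc'def, div_le_one (by positivity)]
    exact hcm1.trans (one_le_pow₀ (by norm_num))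
  obtain ⟨C₅, hC₅, hT⟩ := hTS2 d L c'⁻¹ hL ((one_le_inv₀ hc'0).2 hc'1)
  obtain ⟨C, hCdef⟩ : ∃ C, C = max C₇ 1 := ⟨_, rfl⟩
  have hC1 : 1 ≤ C := by rw [hCdef]; exact le_max_right _ _
  have hC7 : C₇ ≤ C := by rw [hCdef]; exact le_max_left _ _
  have hC0 : 0 < C := by linarith
  have hC50 : 0 < C₅ := by linarith
  have hcc : 0 ≤ cc d := by
    unfold cc
    have : 0 ≤ Real.log 100 := Real.log_nonneg (by norm_num)
    positivity
  have hlC5 : 0 ≤ Real.log C₅ := Real.log_nonneg hC₅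
  obtain ⟨C', hC'def⟩ : ∃ C', C' = cc d + M * Real.log C₅ := ⟨_, rfl⟩
  have hC'0 : 0 ≤ C' := by rw [hC'def]; positivity
  obtain ⟨Q, hQdef⟩ : ∃ Q : ℝ, Q = 2 ^ (M * K₀) := ⟨_, rfl⟩
  have hQ0 : 0 < Q := by rw [hQdef]; positivity
  obtain ⟨D, hDdef⟩ : ∃ D, D = min (c₁ * c' ^ d * (C⁻¹ * Real.exp (-C') * c' ^ (ε / 2)))
    (c₁ * c' ^ d / (C * Q ^ d)) := ⟨_, rfl⟩
  have hD0 : 0 < D := by
    rw [hDdef]
    exact lt_min (by positivity) (by positivity)
  have hD1 : D ≤ c₁ * c' ^ d * (C⁻¹ * Real.exp (-C') * c' ^ (ε / 2)) := by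
    rw [hDdef]; exact min_le_left _ _
  have hD2 : D ≤ c₁ * c' ^ d / (C * Q ^ d) := by
    rw [hDdef]; exact min_le_right _ _
  refine ⟨M, hM, (c₆ * D)⁻¹, by positivity, ?_⟩
  intro δ hδ hδ1 N c e hu hsep A hcov
  obtain ⟨P, hPdef⟩ : ∃ P : ℝ, P = ∏ r ∈ Finset.Ico 1 M, (A r : ℝ) := ⟨_, rfl⟩
  have hA1 : ∀ r ∈ Finset.Ico 1 M, (1 : ℝ) ≤ (A r : ℝ) := by
    intro r hr
    rw [Finset.mem_Ico] at hr
    exact_mod_cast (hcov r hr.1 hr.2).1
  have hP1 : 1 ≤ P := by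
    rw [hPdef]
    have := Finset.prod_le_prod (s := Finset.Ico 1 M) (f := fun _ => (1 : ℝ))
      (g := fun r => (A r : ℝ)) (fun _ _ => zero_le_one) hA1
    rwa [Finset.prod_const_one] at this
  have hP0 : 0 < P := by linarith
  have hlogP : Real.log P = ∑ r ∈ Finset.Ico 1 M, Real.log (A r) := by
    rw [hPdef, Real.log_prod]
    intro r hr
    have := hA1 r hr
    linarith
  rw [← hPdef]
  have hmain := hO δ (D * δ ^ ε * P⁻¹ * δ ^ d) hδ hδ1 (by positivity) (Fin N) c e hu ?_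
  · refine le_trans (le_of_eq ?_) hmain
    congr 1
    rw [inv_inv, Fintype.card_fin]
    ring
  intro κ _ f k g q hf hcell
  rcases isEmpty_or_nonempty κ with hκ | hκ
  · simp
  obtain ⟨K, hJ1, hJ2⟩ := exists_K hM hcm0 hcm1 hδ hδ1
  rw [← hc'def] at hJ2
  have hJδ : ((2 : ℝ) ^ (M * K))⁻¹ ≤ δ := by
    refine hJ1.trans ?_
    nlinarith
  have hN0 : (0 : ℝ) < Fintype.card κ := by exact_mod_cast Fintype.card_pos
  have hsepf : ∀ i i', i ≠ i' → δ ≤ ‖e (f i) - e (f i')‖ := fun i i' h =>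
    hsep _ _ (fun h' => h (hf h'))
  have hNC : (Fintype.card κ : ℝ) ≤ C * (δ ^ d)⁻¹ := by
    refine (hD δ hδ hδ1 κ (fun i => e (f i)) (fun i => hu _) hsepf).trans ?_
    gcongr
  obtain ⟨p, hpdef⟩ : ∃ p : κ → ℝ, p = fun _ => (Fintype.card κ : ℝ)⁻¹ := ⟨_, rfl⟩
  have hp : IsLaw p := by
    rw [hpdef]
    refine ⟨fun _ => by positivity, ?_⟩
    rw [Finset.sum_const, Finset.card_univ, nsmul_eq_mul, mul_inv_cancel₀ hN0.ne']
  have hvol := hV δ (M * K) hδ hδ1 (hJ1.trans (by gcongr)) κ (fun i => c (f i))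
    (fun i => e (f i)) k g q hcell p hp
  refine le_trans (ENNReal.ofReal_le_ofReal ?_) hvol
  obtain ⟨u, hudef⟩ : ∃ u, u = uT k g (fun i => c (f i)) (fun i => e (f i)) := ⟨_, rfl⟩
  obtain ⟨dd, hdddef⟩ : ∃ dd, dd = dT k (fun i => e (f i)) := ⟨_, rfl⟩
  rw [← hudef, ← hdddef]
  obtain ⟨I, hIdef⟩ : ∃ I, I = ∫ s in (0 : ℝ)..1, H p (Xp u dd s (M * K)) := ⟨_, rfl⟩
  rw [← hIdef]
  have hI0 : 0 ≤ I := by
    rw [hIdef]
    exact intervalIntegral.integral_nonneg (by norm_num)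
      (fun s _ => H_nonneg hp.nonneg hp.sum_one _)
  have hJd : c' ^ d * δ ^ d ≤ (((2 : ℝ) ^ (M * K))⁻¹) ^ d := by
    rw [← mul_pow]
    exact pow_le_pow_left₀ (by positivity) hJ2 d
  have hδd : δ ^ d * (δ ^ d)⁻¹ = 1 := mul_inv_cancel₀ (by positivity)
  have hδε : δ ^ ε ≤ 1 := Real.rpow_le_one hδ.le hδ1.le hε.le
  by_cases hgood : K₀ ≤ K
  · have hcell2 := cell2 hcell
    have hddb : ∀ ω i, |dd ω i| ≤ 1 := by
      intro i l
      have h3 := (hcell.mx i).slp (hcell.unit i) l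
      have h4 : hm d ≤ 1 := by
        unfold hm
        rw [div_le_one (by positivity)]
        have : (0 : ℝ) ≤ d := by positivity
        linarith
      have h5 : 0 ≤ hm d := by unfold hm; positivity
      rw [hdddef]
      unfold dT
      rw [abs_mul, abs_of_nonneg h5]
      exact mul_le_one₀ h4 (abs_nonneg _) h3
    have hst : ∀ r ∈ Finset.range M,
        CH p (Fl u (r * K)) (fun ω => (Fl dd (r * K) ω, (fun _ => ()) ω)) ≤
          if r ∈ Finset.Ico 1 M then Real.log C₅ + Real.log (A r) else 0 := by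
      intro r hr
      rw [Finset.mem_range] at hr
      split_ifs with hr1
      · rw [Finset.mem_Ico] at hr1
        have hsc := scales (r := r) hM hr.le hc'0 hc'1 hδ hJδ hJ2
        have hM0 : (0 : ℝ) < M := by exact_mod_cast hM
        have hrM : (r : ℝ) / M ≤ 1 := by
          rw [div_le_one hM0]
          exact_mod_cast hr.le
        have hr0 : (0 : ℝ) ≤ (r : ℝ) / M := by positivity
        have hρ1 : δ ^ ((r : ℝ) / M) ≤ 1 := Real.rpow_le_one hδ.le hδ1.le hr0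
        have hρδ : δ ≤ δ ^ ((r : ℝ) / M) := by
          calc δ = δ ^ (1 : ℝ) := (Real.rpow_one δ).symm
            _ ≤ δ ^ ((r : ℝ) / M) := Real.rpow_le_rpow_of_exponent_ge hδ hδ1.le hrM
        have hcv : CovAt L δ (δ ^ ((r : ℝ) / M)) (A r) (fun i => c (f i)) (fun i => e (f i)) := by
          intro x v hv
          obtain ⟨F, h4, h5, h6⟩ := (hcov r hr1.1 hr1.2).2 x v hv
          exact ⟨F, h4, h5, fun i => h6 (f i)⟩
        have h1 := hT δ (δ ^ ((r : ℝ) / M)) (r * K) (A r) hδ hδ1 hρδ hρ1 hsc.1 hsc.2 κ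
          (fun i => c (f i)) (fun i => e (f i)) k g q hcell2 (hcov r hr1.1 hr1.2).1 hcv p
          (fun _ => 0) hp
        rw [sft_zero, ← hudef, ← hdddef] at h1
        have hAr : (0 : ℝ) < A r := by
          have := (hcov r hr1.1 hr1.2).1
          exact_mod_cast this
        rw [Real.log_mul hC50.ne' hAr.ne'] at h1
        refine le_trans (CH_mono_cond hp.nonneg ?_) h1
        intro ω ω' _ _ h
        exact (Prod.ext_iff.mp h).1
      · have hr0 : r = 0 := by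
          rw [Finset.mem_Ico] at hr1
          omega
        subst hr0
        refine le_of_eq (CH_eq_zero hp.nonneg ?_)
        intro ω ω' _ _ _
        rw [Nat.zero_mul, hudef]
        unfold Fl
        rw [hcell.ps ω, hcell.ps ω']
    have hspa := hSPA d κ Unit p u dd (fun _ => ()) hp hddb M K
    have hep := hG K hgood κ Unit p u dd (fun _ => ()) hp hddb
    have h3 : Xav p u dd (fun _ => ()) (M * K) = I := by
      rw [hIdef]
      unfold Xav
      refine intervalIntegral.integral_congr fun s _ => ?_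
      exact CH_unit hp _
    rw [CH_unit hp, Finset.sum_add_distrib] at hspa
    rw [h3] at hep
    have hsum : ∑ r ∈ Finset.range M,
        (if r ∈ Finset.Ico 1 M then Real.log C₅ + Real.log (A r) else 0) ≤
        M * Real.log C₅ + Real.log P := by
      rw [← Finset.sum_filter]
      have hfil : (Finset.range M).filter (fun r => r ∈ Finset.Ico 1 M) = Finset.Ico 1 M := by
        ext r
        simp only [Finset.mem_filter, Finset.mem_range, Finset.mem_Ico]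
        omega
      rw [hfil, Finset.sum_add_distrib, Finset.sum_const, nsmul_eq_mul, ← hlogP, Nat.card_Ico]
      have : ((M - 1 : ℕ) : ℝ) * Real.log C₅ ≤ M * Real.log C₅ := by
        refine mul_le_mul_of_nonneg_right ?_ hlC5
        exact_mod_cast Nat.sub_le M 1
      linarith
    have hst' := (Finset.sum_le_sum hst).trans hsum
    have h4 : H p (Fl dd (M * K)) = Real.log (Fintype.card κ) := by
      rw [hpdef, hdddef]
      exact H_uniform (hS δ (M * K) hδ hδ1 (hJ1.trans (by gcongr)) κ (fun i => c (f i))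
        (fun i => e (f i)) k g q hcell hsepf)
    rw [h4] at hspa
    have h5 : Real.log (Fintype.card κ) ≤ C' + Real.log P +
        ((1 + ε / (2 * d)) * I + ε * Real.log 2 / 2 * ((M * K : ℕ) : ℝ)) := by
      have hcast : ((M * K : ℕ) : ℝ) = (M : ℝ) * K := by push_cast; ring
      rw [hC'def, hcast]
      linarith
    have h6 := TU2.good_case hd hε hc'0 hc'1 hC1 hN0 hδ hδ1 hP1 hC'0 hNC hJ2 h5
    calc D * δ ^ ε * P⁻¹ * δ ^ d * (Fintype.card κ : ℝ)
        ≤ (c₁ * c' ^ d * (C⁻¹ * Real.exp (-C') * c' ^ (ε / 2))) * δ ^ ε * P⁻¹ * δ ^ d *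
            (Fintype.card κ : ℝ) := by
          gcongr
      _ = c₁ * (c' ^ d * δ ^ d) * ((Fintype.card κ : ℝ) *
            (C⁻¹ * Real.exp (-C') * δ ^ ε * c' ^ (ε / 2) * P⁻¹)) := by
          ring
      _ ≤ c₁ * (((2 : ℝ) ^ (M * K))⁻¹) ^ d * Real.exp I := by
          gcongr
  · have hKQ : Q⁻¹ ≤ δ := by
      refine le_trans ?_ hJδ
      rw [hQdef]
      push Not at hgood
      have : M * K ≤ M * K₀ := Nat.mul_le_mul_left M hgood.le
      gcongr
      norm_num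
    have h1 := TU2.bad_case (d := d) (cl := c₁ * c' ^ d) hC1 hδ hP1 hQ0 hKQ hD2 hD0
    calc D * δ ^ ε * P⁻¹ * δ ^ d * (Fintype.card κ : ℝ)
        ≤ D * 1 * P⁻¹ * δ ^ d * (C * (δ ^ d)⁻¹) := by
          gcongr
      _ = D * P⁻¹ * C * (δ ^ d * (δ ^ d)⁻¹) := by ring
      _ = D * P⁻¹ * C := by rw [hδd, mul_one]
      _ ≤ c₁ * c' ^ d * δ ^ d := h1
      _ = c₁ * (c' ^ d * δ ^ d) * 1 := by ring
      _ ≤ c₁ * (((2 : ℝ) ^ (M * K))⁻¹) ^ d * Real.exp I := by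
          have := Real.one_le_exp hI0
          gcongr

end Pool.STK
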